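import Pool.Agent.Helper89.MM.Defs

/-!
# Euler products at the central point

The definitions used in the statement about the central Euler products of the families through
`r = 0, 1, 2` marked points; the families are defined in `Pool/Agent/Helper89/MM/Defs.lean`.
-/

set_option autoImplicit false

namespace Pool.Agent.Helper89.EllipticFamilies

open NumberField IsDedekindDomain

variable {K : Type} [Field K] [NumberField K]

open Classical in
/-- The reciprocal of the Euler factor at `v` of the L-series of `E ⊗ ψ` at the central point `s = 1`: it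
is `1 - ψ(v) a_v / N v + ψ(v)² / N v` if `v` does not divide `6 Δ`, and `1` otherwise. -/
noncomputable def centralFactor (W : WeierstrassCurve (𝓞 K)) (ψ : HeightOneSpectrum (𝓞 K) → ℂ)
    (v : HeightOneSpectrum (𝓞 K)) : ℂ :=
  if 6 * W.Δ ∈ v.asIdeal then 1
  else 1 - ψ v * trace W v / Ideal.absNorm v.asIdeal + ψ v ^ 2 / Ideal.absNorm v.asIdeal

/-- The prime ideals of norm at most `x`. -/
def primesUpTo (K : Type) [Field K] [NumberField K] (x : ℕ) : Set (HeightOneSpectrum (𝓞 K)) :=
  {v | Ideal.absNorm v.asIdeal ≤ x}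

/-- The Euler product of the L-series of `E ⊗ ψ` at `s = 1` over the primes of norm at most `x`. -/
noncomputable def centralProduct (W : WeierstrassCurve (𝓞 K)) (ψ : HeightOneSpectrum (𝓞 K) → ℂ)
    (x : ℕ) : ℂ :=
  ∏ᶠ v ∈ primesUpTo K x, (centralFactor W ψ v)⁻¹

/-- The sum of `(r ψ(v) + ψ(v)² / 2) / N v` over the primes of norm at most `x`. -/
noncomputable def mainTerm (r : ℕ) (ψ : HeightOneSpectrum (𝓞 K) → ℂ) (x : ℕ) : ℂ :=
  ∑ᶠ v ∈ primesUpTo K x, (r * ψ v + ψ v ^ 2 / 2) / Ideal.absNorm v.asIdeal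

/-- `(log log x) ^ (1/2) (1 + log log log x) ^ ε`. -/
noncomputable def errorTerm (ε : ℝ) (x : ℕ) : ℝ :=
  Real.log (Real.log x) ^ (1 / 2 : ℝ) * (1 + Real.log (Real.log (Real.log x))) ^ ε

/-- The members `z` of the box `U < z ≤ U + N` for which `|f(E_z, x)| > l (log log x) ^ (1/2)
(1 + log log log x) ^ ε` for some `x ≥ 16` with `x ^ k ≤ N`; here `E_z` is the Weierstrass equation of the
family `c` whose parameters have the coordinates `z` with respect to the integral basis `ω`. -/
def exceptions {J I : Type} [Fintype I] (c : (J → 𝓞 K) → WeierstrassCurve (𝓞 K))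
    (ω : Module.Basis I ℤ (𝓞 K)) (U : J × I → ℤ) (N k : ℕ) (ε l : ℝ)
    (f : WeierstrassCurve (𝓞 K) → ℕ → ℝ) : Set (J × I → ℤ) :=
  {z | (∀ i, U i < z i ∧ z i ≤ U i + N) ∧
    ∃ x : ℕ, 16 ≤ x ∧ x ^ k ≤ N ∧ l * errorTerm ε x < |f (c (param ω z)) x|}

end Pool.Agent.Helper89.EllipticFamilies
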