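import Pool.Graph.R_pool_sql_team_seeded_63374d34.N430.BP.NF4
import Pool.Agent.Helper89.MM.Bridge

/-!
# Equidistribution of parameters with coordinates in boxes modulo prime ideals
-/

set_option autoImplicit false
set_option linter.all false

namespace Pool.Agent.Helper89.CP

open Finset NumberField IsDedekindDomain Module
open Pool.Agent.N430.BP
open Pool.Agent.H921R2.TatePole (below deg nm nm_eq fiber_card_le R R_eq_hc hc R_le two_le_nm)
open Pool.Agent.Helper89.MM (fintypeV redJ)
open Pool.Agent.Helper89.EllipticFamilies (param)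

section
variable {K : Type} [Field K] [NumberField K] {J : Type} [Fintype J] [DecidableEq J]

attribute [local instance] fintypeV

/-- the number of coordinates -/
noncomputable abbrev dm (K : Type) [Field K] [NumberField K] (J : Type) [Fintype J] : ℕ :=
  Fintype.card (J × Fin (finrank ℚ K))

/-- the numbering of the coordinates -/
noncomputable def en (K : Type) [Field K] [NumberField K] (J : Type) [Fintype J] :
    J × Fin (finrank ℚ K) ≃ Fin (dm K J) := Fintype.equivFin _

/-- the point of the box; only the first coordinates matter -/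
noncomputable def zp (U : J × Fin (finrank ℚ K) → ℤ) (w : Pt (dm K J)) : J × Fin (finrank ℚ K) → ℤ :=
  fun i => U i + (w (en K J i)).1

variable (ω : Basis (Fin (finrank ℚ K)) ℤ (𝓞 K))

/-- the reduction of the parameters -/
noncomputable def rd (v : HeightOneSpectrum (𝓞 K)) (z : J × Fin (finrank ℚ K) → ℤ) :
    J → 𝓞 K ⧸ v.asIdeal := redJ v (param ω z)

omit [DecidableEq J] in
theorem rd_apply (v : HeightOneSpectrum (𝓞 K)) (z : J × Fin (finrank ℚ K) → ℤ) (j : J) :
    rd ω v z j = ∑ i, ((z (j, i) : ℤ) : 𝓞 K ⧸ v.asIdeal) * Ideal.Quotient.mk v.asIdeal (ω i) := by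
  change Ideal.Quotient.mk v.asIdeal (∑ i, z (j, i) • ω i) = _
  rw [map_sum]
  refine Finset.sum_congr rfl fun i _ => ?_
  rw [zsmul_eq_mul, map_mul, map_intCast]

omit [DecidableEq J] in
theorem rd_zp (v : HeightOneSpectrum (𝓞 K)) (U : J × Fin (finrank ℚ K) → ℤ) (w : Pt (dm K J)) (j : J) :
    rd ω v (zp U w) j = rd ω v U j +
      ∑ i, (((w (en K J (j, i))).1 : ℕ) : 𝓞 K ⧸ v.asIdeal) * Ideal.Quotient.mk v.asIdeal (ω i) := by
  rw [rd_apply, rd_apply, ← Finset.sum_add_distrib]
  refine Finset.sum_congr rfl fun i _ => ?_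
  unfold zp
  push_cast
  ring

omit [DecidableEq J] in
/-- periodicity -/
theorem rd_per {p : ℕ} (v : HeightOneSpectrum (𝓞 K)) (hv : (below v : ℕ) = p)
    (U : J × Fin (finrank ℚ K) → ℤ) (G : (J → 𝓞 K ⧸ v.asIdeal) → ℝ) :
    PerM p (fun w : Pt (dm K J) => G (rd ω v (zp U w))) := by
  classical
  have hchar : ((p : ℕ) : 𝓞 K ⧸ v.asIdeal) = 0 := by
    rw [← hv]
    exact natCast_res v
  intro k w
  constructor
  · show G _ = G _
    congr 1
    funext j
    rw [rd_zp, rd_zp]
    congr 1
    refine Finset.sum_congr rfl fun i _ => ?_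
    congr 1
    by_cases h : en K J (j, i) = k
    · rw [h, Function.update_self]
      push_cast
      rw [hchar, add_zero]
    · rw [Function.update_of_ne h]
  · show G _ = G _
    congr 1
    funext j
    rw [rd_zp, rd_zp]
    congr 1
    refine Finset.sum_congr rfl fun i _ => ?_
    congr 1
    by_cases h : en K J (j, i) = k
    · rw [h, Function.update_self]
    · rw [Function.update_of_ne h]

theorem avgPM_mul_left' (N : ℕ) (c : ℝ) : ∀ (m : ℕ) (F : Pt m → ℝ),
    avgPM N m (fun w => c * F w) = c * avgPM N m F := avgPM_mul_left N c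

/-- **Equidistribution.** -/
theorem rd_mean {p : ℕ} (hp : 0 < p) (v : HeightOneSpectrum (𝓞 K)) (hv : (below v : ℕ) = p)
    (U : J × Fin (finrank ℚ K) → ℤ) (G : (J → 𝓞 K ⧸ v.asIdeal) → ℝ) :
    avgPM p (dm K J) (fun w => G (rd ω v (zp U w))) =
      (∑ a, G a) / Fintype.card (J → 𝓞 K ⧸ v.asIdeal) := by
  classical
  have hpv : (p : 𝓞 K) ∈ v.asIdeal := by
    rw [← hv]
    exact (nm_eq v).2.2
  set H : Pt (dm K J) → ℝ := fun w => G (rd ω v (zp U w)) with hH
  have hper : PerM p H := rd_per ω v hv U G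
  have hq : (0 : ℝ) < Fintype.card (J → 𝓞 K ⧸ v.asIdeal) := by exact_mod_cast Fintype.card_pos
  -- the shifts
  have hsh : ∀ b : J → 𝓞 K ⧸ v.asIdeal,
      avgPM p (dm K J) (fun w => G (rd ω v (zp U w) + b)) = avgPM p (dm K J) H := by
    intro b
    choose t ht using fun j => surj_res ω hp v hpv (b j)
    have h1 := avgPM_shift hper (fun k => (t ((en K J).symm k).1 ((en K J).symm k).2, 0))
    rw [← h1]
    congr 1
    funext w
    show G _ = G _
    congr 1
    funext j
    rw [Pi.add_apply, rd_zp, rd_zp, add_assoc]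
    congr 1
    rw [← ht j, ← Finset.sum_add_distrib]
    refine Finset.sum_congr rfl fun i _ => ?_
    simp only [Equiv.symm_apply_apply]
    push_cast
    ring
  have h2 : ∑ b : J → 𝓞 K ⧸ v.asIdeal, avgPM p (dm K J) (fun w => G (rd ω v (zp U w) + b)) =
      Fintype.card (J → 𝓞 K ⧸ v.asIdeal) * avgPM p (dm K J) H := by
    rw [Finset.sum_congr rfl fun b _ => hsh b, Finset.sum_const, card_univ, nsmul_eq_mul]
  have h3 : avgPM p (dm K J) (fun w => ∑ b : J → 𝓞 K ⧸ v.asIdeal, G (rd ω v (zp U w) + b)) =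
      ∑ b : J → 𝓞 K ⧸ v.asIdeal, avgPM p (dm K J) (fun w => G (rd ω v (zp U w) + b)) :=
    avgPM_sum p Finset.univ (dm K J) (fun b w => G (rd ω v (zp U w) + b))
  have h4 : ∀ w : Pt (dm K J), ∑ b : J → 𝓞 K ⧸ v.asIdeal, G (rd ω v (zp U w) + b) = ∑ a, G a :=
    fun w => Fintype.sum_equiv (Equiv.addLeft (rd ω v (zp U w))) _ _ fun b => rfl
  simp only [h4] at h3
  rw [avgPM_const hp] at h3
  rw [h3, h2, mul_div_cancel_left₀ _ hq.ne']

end

end Pool.Agent.Helper89.CP
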