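import Pool.Agent.Helper89.CP.Equi

/-!
# A law for almost all members of a family, for sums of local functions over the primes of a number field
-/

set_option autoImplicit false
set_option linter.all false

namespace Pool.Agent.Helper89.CP

open Finset NumberField IsDedekindDomain Module
open Pool.Agent.N430.BP
open Pool.Agent.H921R2.TatePole (below deg nm nm_eq fiber_card_le R R_eq_hc hc R_le two_le_nm)
open Pool.Agent.Helper89.MM (fintypeV redJ)
open Pool.Agent.Helper89.EllipticFamilies (param)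

attribute [local instance] fintypeV

/-- Local functions with uniform bounds. -/
structure LF (K : Type) [Field K] [NumberField K] (J : Type) [Fintype J] [DecidableEq J] (P : Type) where
  g : P → ∀ v : HeightOneSpectrum (𝓞 K), (J → 𝓞 K ⧸ v.asIdeal) → ℝ
  M : P → HeightOneSpectrum (𝓞 K) → ℝ
  C0 : ℝ
  C0_nonneg : 0 ≤ C0
  bound : ∀ ψ v a, |g ψ v a| ≤ C0 * ri (below v : ℕ) ^ deg v
  boundM : ∀ ψ v, |M ψ v| ≤ C0 * ri (below v : ℕ) ^ deg v
  mean : ∀ ψ v, |(∑ a, g ψ v a) / Fintype.card (J → 𝓞 K ⧸ v.asIdeal) - M ψ v| ≤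
    C0 * ri (below v : ℕ) ^ (3 * deg v)

namespace LF

variable {K : Type} [Field K] [NumberField K] {J : Type} [Fintype J] [DecidableEq J] {P : Type}
  (d : LF K J P)

/-- the mean -/
noncomputable def E (ψ : P) (v : HeightOneSpectrum (𝓞 K)) : ℝ :=
  (∑ a, d.g ψ v a) / Fintype.card (J → 𝓞 K ⧸ v.asIdeal)

theorem E_bound (ψ : P) (v : HeightOneSpectrum (𝓞 K)) : |d.E ψ v| ≤ d.C0 * ri (below v : ℕ) ^ deg v := by
  have hq : (0 : ℝ) < Fintype.card (J → 𝓞 K ⧸ v.asIdeal) := by exact_mod_cast Fintype.card_pos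
  unfold E
  rw [abs_div, abs_of_pos hq, div_le_iff₀ hq]
  refine (Finset.abs_sum_le_sum_abs _ _).trans ((Finset.sum_le_sum fun a _ => d.bound ψ v a).trans ?_)
  rw [Finset.sum_const, card_univ, nsmul_eq_mul, mul_comm]

/-- the parameters of the law: the basis, the origin of the box, the parameter of the function -/
abbrev Par (K : Type) [Field K] [NumberField K] (J : Type) (P : Type) : Type :=
  Basis (Fin (finrank ℚ K)) ℤ (𝓞 K) × (J × Fin (finrank ℚ K) → ℤ) × P

/-- the sum over the primes above `p` of degree `f` -/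
noncomputable def XF (f p : ℕ) (s : Par K J P) (w : Pt (dm K J)) : ℝ :=
  if h : p.Prime then ∑ v : {v : HeightOneSpectrum (𝓞 K) // below v = mkP p h},
    (if deg v.1 = f then d.g s.2.2 v.1 (rd s.1 v.1 (zp s.2.1 w)) - d.E s.2.2 v.1 else 0) else 0

/-- the local data -/
noncomputable def data : LocalData (dm K J) (Par K J P × Bool) where
  X s p w := d.XF (if s.2 then 1 else 2) p s.1 w
  b p := finrank ℚ K * (2 * d.C0 * ri p)
  b_nonneg p := by
    have := ri_nonneg p
    have := d.C0_nonneg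
    positivity
  per s p hp _ := by
    intro j w
    constructor
    · show d.XF _ p _ _ = d.XF _ p _ _
      unfold XF
      rw [dif_pos hp, dif_pos hp]
      refine Finset.sum_congr rfl fun v _ => ?_
      have hv : (below v.1 : ℕ) = p := by rw [v.2]; rfl
      have := (rd_per s.1.1 v.1 hv s.1.2.1 (d.g s.1.2.2 v.1) j w).1
      simp only at this
      rw [this]
    · show d.XF _ p _ _ = d.XF _ p _ _
      unfold XF
      rw [dif_pos hp, dif_pos hp]
      refine Finset.sum_congr rfl fun v _ => ?_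
      have hv : (below v.1 : ℕ) = p := by rw [v.2]; rfl
      have := (rd_per s.1.1 v.1 hv s.1.2.1 (d.g s.1.2.2 v.1) j w).2
      simp only at this
      rw [this]
  bound s p hp _ w := by
    unfold XF
    rw [dif_pos hp]
    have hr0 := ri_nonneg p
    have hr1 := ri_le_one hp.pos
    have hC := d.C0_nonneg
    refine (Finset.abs_sum_le_sum_abs _ _).trans ?_
    have h1 : ∀ v : {v : HeightOneSpectrum (𝓞 K) // below v = mkP p hp},
        |if deg v.1 = (if s.2 then 1 else 2) then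
          d.g s.1.2.2 v.1 (rd s.1.1 v.1 (zp s.1.2.1 w)) - d.E s.1.2.2 v.1 else 0| ≤ 2 * d.C0 * ri p := by
      intro v
      by_cases hd0 : deg v.1 = (if s.2 then 1 else 2)
      · rw [if_pos hd0]
        have hv : (below v.1 : ℕ) = p := by rw [v.2]; rfl
        have k1 := d.bound s.1.2.2 v.1 (rd s.1.1 v.1 (zp s.1.2.1 w))
        have k2 := d.E_bound s.1.2.2 v.1
        rw [hv] at k1 k2
        have hd := (nm_eq v.1).2.1
        have k3 : ri p ^ deg v.1 ≤ ri p := pow_le_of_le_one hr0 hr1 hd.ne'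
        have k4 : d.C0 * ri p ^ deg v.1 ≤ d.C0 * ri p := mul_le_mul_of_nonneg_left k3 hC
        refine (abs_sub _ _).trans ?_
        linarith
      · rw [if_neg hd0, abs_zero]
        positivity
    refine (Finset.sum_le_sum fun v _ => h1 v).trans ?_
    rw [Finset.sum_const, card_univ, nsmul_eq_mul]
    exact mul_le_mul_of_nonneg_right (fiber_le _) (by positivity)
  mean s p hp _ := by
    unfold XF
    simp only [dif_pos hp]
    rw [avgPM_sum]
    refine Finset.sum_eq_zero fun v _ => ?_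
    by_cases hd0 : deg v.1 = (if s.2 then 1 else 2)
    · simp only [if_pos hd0]
      have e : (fun w : Pt (dm K J) => d.g s.1.2.2 v.1 (rd s.1.1 v.1 (zp s.1.2.1 w)) - d.E s.1.2.2 v.1) =
          fun w : Pt (dm K J) => d.g s.1.2.2 v.1 (rd s.1.1 v.1 (zp s.1.2.1 w)) + (-d.E s.1.2.2 v.1) := by
        funext w
        ring
      rw [e, avgPM_add, avgPM_const hp.pos,
        rd_mean s.1.1 hp.pos v.1 (by rw [v.2]; rfl) s.1.2.1 (d.g s.1.2.2 v.1)]
      unfold E
      ring
    · simp only [if_neg hd0]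
      exact avgPM_const hp.pos 0 _
  B := (finrank ℚ K * (2 * d.C0)) ^ 2 * (1 + |(Pool.Agent.Helper256.KM.mertens_inv).choose|)
  B_nonneg := by positivity
  sum_sq x hx := by
    have h3 := (Pool.Agent.Helper256.KM.mertens_inv).choose_spec x (by omega)
    set C3 := (Pool.Agent.Helper256.KM.mertens_inv).choose with hC3
    have hT := one_le_loglog hx
    have h1 : ∀ p ∈ OP x, (finrank ℚ K * (2 * d.C0 * ri p)) ^ 2 =
        (finrank ℚ K * (2 * d.C0)) ^ 2 * (1 / (p : ℝ)) := by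
      intro p _
      have := ri_sq (p := p)
      rw [one_div, ← this]
      ring
    rw [Finset.sum_congr rfl h1, ← Finset.mul_sum, mul_assoc]
    refine mul_le_mul_of_nonneg_left ?_ (by positivity)
    have h4 : ∑ p ∈ OP x, (1 : ℝ) / p ≤ ∑ p ∈ (Icc 1 x).filter Nat.Prime, (1 : ℝ) / p :=
      Finset.sum_le_sum_of_subset_of_nonneg (Finset.filter_subset _ _) fun p _ _ => by positivity
    have h5 := (abs_le.1 h3).2
    have h6 : C3 ≤ |C3| := le_abs_self _
    nlinarith [abs_nonneg C3]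

/-- the centred local function of a member -/
noncomputable def cen (s : Par K J P) (w : Pt (dm K J)) (v : HeightOneSpectrum (𝓞 K)) : ℝ :=
  d.g s.2.2 v (rd s.1 v (zp s.2.1 w)) - d.M s.2.2 v

theorem cen_bound (s : Par K J P) (w : Pt (dm K J)) (v : HeightOneSpectrum (𝓞 K)) :
    |d.cen s w v| ≤ 2 * d.C0 * ri (below v : ℕ) ^ deg v := by
  have h1 := d.bound s.2.2 v (rd s.1 v (zp s.2.1 w))
  have h2 := d.boundM s.2.2 v
  unfold cen
  refine (abs_sub _ _).trans ?_
  linarith

theorem HH_two' (s : Par K J P) (w : Pt (dm K J)) (x p : ℕ) :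
    |HH (d.cen s w) x p| ≤ finrank ℚ K * (2 * d.C0) := by
  have hC := d.C0_nonneg
  unfold HH
  split_ifs with h
  · refine (Finset.abs_sum_le_sum_abs _ _).trans ?_
    have h1 : ∀ v : {v : HeightOneSpectrum (𝓞 K) // below v = mkP p h},
        |if nm v.1 ≤ x then d.cen s w v.1 else 0| ≤ 2 * d.C0 := by
      intro v
      split_ifs
      · refine (d.cen_bound s w v.1).trans ?_
        have h2 := pow_le_one₀ (n := deg v.1) (ri_nonneg _) (ri_le_one (below v.1).2.pos)
        have h3 : 2 * d.C0 * ri (below v.1 : ℕ) ^ deg v.1 ≤ 2 * d.C0 * 1 :=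
          mul_le_mul_of_nonneg_left h2 (by positivity)
        linarith
      · rw [abs_zero]
        positivity
    refine (Finset.sum_le_sum fun v _ => h1 v).trans ?_
    rw [Finset.sum_const, card_univ, nsmul_eq_mul]
    exact mul_le_mul_of_nonneg_right (fiber_le _) (by positivity)
  · rw [abs_zero]
    positivity

theorem HH_dec' (s : Par K J P) (w : Pt (dm K J)) {x p : ℕ} (hp : p ∈ OP x) :
    |HH (d.cen s w) x p - (d.XF 1 p s w + if p ^ 2 ≤ x then d.XF 2 p s w else 0)| ≤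
      finrank ℚ K * (2 * d.C0 * ri p ^ 3) := by
  have hC := d.C0_nonneg
  rw [mem_OP] at hp
  obtain ⟨hpx, hpp, hp2⟩ := hp
  unfold HH XF
  simp only [dif_pos hpp]
  have e : (if p ^ 2 ≤ x then ∑ v : {v : HeightOneSpectrum (𝓞 K) // below v = mkP p hpp},
      (if deg v.1 = 2 then d.g s.2.2 v.1 (rd s.1 v.1 (zp s.2.1 w)) - d.E s.2.2 v.1 else 0) else 0) =
      ∑ v : {v : HeightOneSpectrum (𝓞 K) // below v = mkP p hpp}, (if p ^ 2 ≤ x then
      (if deg v.1 = 2 then d.g s.2.2 v.1 (rd s.1 v.1 (zp s.2.1 w)) - d.E s.2.2 v.1 else 0) else 0) := by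
    split_ifs
    · rfl
    · rw [Finset.sum_const_zero]
  rw [e, ← Finset.sum_add_distrib, ← Finset.sum_sub_distrib]
  refine (Finset.abs_sum_le_sum_abs _ _).trans ?_
  have hr0 := ri_nonneg p
  have hr1 := ri_le_one hpp.pos
  have h1 : ∀ v : {v : HeightOneSpectrum (𝓞 K) // below v = mkP p hpp},
      |(if nm v.1 ≤ x then d.cen s w v.1 else 0) -
        ((if deg v.1 = 1 then d.g s.2.2 v.1 (rd s.1 v.1 (zp s.2.1 w)) - d.E s.2.2 v.1 else 0) +
        (if p ^ 2 ≤ x then (if deg v.1 = 2 then d.g s.2.2 v.1 (rd s.1 v.1 (zp s.2.1 w)) - d.E s.2.2 v.1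
          else 0) else 0))| ≤ 2 * d.C0 * ri p ^ 3 := by
    intro v
    have hv : (below v.1 : ℕ) = p := by rw [v.2]; rfl
    obtain ⟨n1, n2, _⟩ := nm_eq v.1
    rw [hv] at n1
    have hb := d.cen_bound s w v.1
    have hm : |d.E s.2.2 v.1 - d.M s.2.2 v.1| ≤ d.C0 * ri (below v.1 : ℕ) ^ (3 * deg v.1) := d.mean s.2.2 v.1
    rw [hv] at hb hm
    have hpos : 0 ≤ d.C0 * ri p ^ 3 := by positivity
    have ecen : d.cen s w v.1 - (d.g s.2.2 v.1 (rd s.1 v.1 (zp s.2.1 w)) - d.E s.2.2 v.1) =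
        d.E s.2.2 v.1 - d.M s.2.2 v.1 := by
      unfold cen
      ring
    rcases (show deg v.1 = 1 ∨ deg v.1 = 2 ∨ 3 ≤ deg v.1 by omega) with h1 | h2 | h3
    · rw [h1, pow_one] at n1
      rw [n1, if_pos hpx, h1]
      rw [if_pos rfl, if_neg (by norm_num : ¬ (1 : ℕ) = 2), ite_self, add_zero, ecen]
      rw [h1, mul_one] at hm
      linarith
    · rw [h2] at n1
      rw [n1, h2]
      rw [if_neg (by norm_num : ¬ (2 : ℕ) = 1), if_pos rfl, zero_add]
      split_ifs
      · rw [ecen]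
        rw [h2] at hm
        have h4 : ri p ^ (3 * 2) ≤ ri p ^ 3 := pow_le_pow_of_le_one hr0 hr1 (by norm_num)
        have h5 : d.C0 * ri p ^ (3 * 2) ≤ d.C0 * ri p ^ 3 := mul_le_mul_of_nonneg_left h4 hC
        linarith
      · rw [sub_zero, abs_zero]
        linarith
    · have k1 : ¬ deg v.1 = 1 := by omega
      have k2 : ¬ deg v.1 = 2 := by omega
      rw [if_neg k1, if_neg k2, ite_self, add_zero, sub_zero]
      split_ifs
      · refine hb.trans ?_
        exact mul_le_mul_of_nonneg_left (pow_le_pow_of_le_one hr0 hr1 h3) (by positivity)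
      · rw [abs_zero]
        linarith
  refine (Finset.sum_le_sum fun v _ => h1 v).trans ?_
  rw [Finset.sum_const, card_univ, nsmul_eq_mul]
  exact mul_le_mul_of_nonneg_right (fiber_le _) (by positivity)

theorem dec : ∃ C : ℝ, 0 ≤ C ∧ ∀ x : ℕ, 16 ≤ x → ∀ (s : Par K J P) (w : Pt (dm K J)),
    |∑ v ∈ Tx K x, d.cen s w v - ∑ p ∈ OP (Nat.sqrt x), d.XF 2 p s w - ∑ p ∈ OP x, d.XF 1 p s w| ≤ C := by
  set Z := ∑' n : ℕ, (n : ℝ) ^ (-(3 / 2) : ℝ) with hZ
  have hZ0 : 0 ≤ Z := tsum_nonneg fun n => by positivity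
  set D : ℝ := ((finrank ℚ K : ℕ) : ℝ) with hd
  have hd0 : 0 ≤ D := Nat.cast_nonneg _
  have hC := d.C0_nonneg
  refine ⟨D * (2 * d.C0) + D * (2 * d.C0 * Z), by positivity, fun x hx s w => ?_⟩
  have e1 := sum_Tx (fun v => d.cen s w v) x
  have e2 := sum_OP (fun p => HH (fun v => d.cen s w v) x p) (x := x) (by omega)
  have b1 : |HH (fun v => d.cen s w v) x 2| ≤ D * (2 * d.C0) := d.HH_two' s w x 2
  have b2 : |∑ p ∈ OP x, (HH (fun v => d.cen s w v) x p - (d.XF 1 p s w +
      if p ^ 2 ≤ x then d.XF 2 p s w else 0))| ≤ D * (2 * d.C0 * Z) := by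
    refine (Finset.abs_sum_le_sum_abs _ _).trans ((Finset.sum_le_sum fun p hp => d.HH_dec' s w hp).trans ?_)
    rw [← Finset.mul_sum, ← Finset.mul_sum]
    exact mul_le_mul_of_nonneg_left (mul_le_mul_of_nonneg_left (sum_ri x) (by positivity)) hd0
  simp only [Finset.sum_sub_distrib, Finset.sum_add_distrib] at b2
  rw [← Finset.sum_filter, OP_sqrt] at b2
  rw [e1]
  have f1 := abs_le.1 b1
  have f2 := abs_le.1 b2
  rw [abs_le]
  constructor <;> linarith [f1.1, f1.2, f2.1, f2.2]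

open Classical in
/-- **The law** for pairs of coordinates. -/
theorem main_Pt {ε A : ℝ} (hε : 0 < ε) (hA : 0 < A) :
    ∃ (k : ℕ) (C : ℝ), 0 < k ∧ 0 ≤ C ∧ ∀ N : ℕ, 0 < N → ∀ s : Par K J P, ∀ l : ℝ, 1 ≤ l →
      (((BX (dm K J) N).filter fun w : Pt (dm K J) => ∃ x : ℕ, 16 ≤ x ∧ x ^ k ≤ N ∧
        l * gauge ε x < |∑ v ∈ Tx K x, d.cen s w v|).card : ℝ) ≤
          C * l ^ (-A) * (N : ℝ) ^ (2 * dm K J) := by
  obtain ⟨C0, hC0, hdec⟩ := d.dec
  set D : Par K J P × Bool → ℕ → Pt (dm K J) → ℝ := fun s x w =>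
    if s.2 then ∑ v ∈ Tx K x, d.cen s.1 w v - ∑ p ∈ OP (Nat.sqrt x), d.XF 2 p s.1 w
    else ∑ p ∈ OP x, d.XF 2 p s.1 w with hD
  have hD0 : ∀ s x w, 16 ≤ x → |D s x w - ∑ p ∈ OP x, d.data.X s p w| ≤ C0 := by
    rintro ⟨U, t⟩ x w hx
    rcases t with _ | _
    · have : D (U, false) x w - ∑ p ∈ OP x, d.data.X (U, false) p w = 0 := by
        rw [hD]
        simp only
        rw [sub_eq_zero]
        rfl
      rw [this, abs_zero]
      exact hC0
    · have := hdec x hx U w
      exact this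
  obtain ⟨k, C, hk, hC, hlaw⟩ := d.data.law D hC0 hD0 hε hA
  set C2 : ℝ := ∑ p ∈ OP 16, d.data.b p with hC2
  have hC20 : 0 ≤ C2 := Finset.sum_nonneg fun p _ => d.data.b_nonneg p
  set l0 : ℝ := 2 + 2 * C2 with hl0
  have hl00 : 0 ≤ l0 := by rw [hl0]; linarith
  refine ⟨k, 2 * C * 2 ^ A + l0 ^ A, hk, by positivity, fun N hN U l hl => ?_⟩
  have hN0 : (0 : ℝ) < N := by exact_mod_cast hN
  have hlp : 0 < l := by linarith
  have hlA : 0 < l ^ (-A) := Real.rpow_pos_of_pos hlp _
  have h2A : (0 : ℝ) < 2 ^ A := Real.rpow_pos_of_pos (by norm_num) _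
  set E := (BX (dm K J) N).filter fun w : Pt (dm K J) => ∃ x : ℕ, 16 ≤ x ∧ x ^ k ≤ N ∧
        l * gauge ε x < |∑ v ∈ Tx K x, d.cen U w v| with hE
  have hcardS : ((#E : ℕ) : ℝ) ≤ (N : ℝ) ^ (2 * dm K J) := by
    have : #E ≤ N ^ (2 * dm K J) := by
      refine (card_filter_le _ _).trans (le_of_eq ?_)
      rw [card_BX]
    exact_mod_cast this
  by_cases hlC : l < l0
  · have h1 : (1 : ℝ) ≤ l0 ^ A * l ^ (-A) := by
      rw [Real.rpow_neg hlp.le, ← div_eq_mul_inv, one_le_div (Real.rpow_pos_of_pos hlp _)]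
      exact Real.rpow_le_rpow hlp.le hlC.le hA.le
    have h2 : (0 : ℝ) ≤ 2 * C * 2 ^ A * l ^ (-A) := by positivity
    calc ((#E : ℕ) : ℝ) ≤ 1 * (N : ℝ) ^ (2 * dm K J) := by rw [one_mul]; exact hcardS
      _ ≤ (2 * C * 2 ^ A + l0 ^ A) * l ^ (-A) * (N : ℝ) ^ (2 * dm K J) := by
        refine mul_le_mul_of_nonneg_right ?_ (by positivity)
        rw [add_mul]
        linarith
  push Not at hlC
  have hl2 : 1 ≤ l / 2 := by linarith
  have L1 := hlaw k le_rfl N hN (U, true) (l / 2) hl2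
  have L2 := hlaw k le_rfl N hN (U, false) (l / 2) hl2
  set E1 := (BX (dm K J) N).filter fun w : Pt (dm K J) => ∃ x : ℕ, 16 ≤ x ∧ x ^ k ≤ N ∧
        l / 2 * Real.log (Real.log x) ^ (1 / 2 : ℝ) * (1 + Real.log (Real.log (Real.log x))) ^ ε <
          |D (U, true) x w| with hE1
  set E2 := (BX (dm K J) N).filter fun w : Pt (dm K J) => ∃ x : ℕ, 16 ≤ x ∧ x ^ k ≤ N ∧
        l / 2 * Real.log (Real.log x) ^ (1 / 2 : ℝ) * (1 + Real.log (Real.log (Real.log x))) ^ ε <
          |D (U, false) x w| with hE2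
  have hsub : E ⊆ E1 ∪ E2 := by
    intro w hw
    rw [hE, mem_filter] at hw
    obtain ⟨hwB, x, hx, hxN, hxl⟩ := hw
    rw [mem_union]
    by_cases h1 : l / 2 * gauge ε x < |D (U, true) x w|
    · left
      rw [hE1, mem_filter]
      refine ⟨hwB, x, hx, hxN, ?_⟩
      rw [mul_assoc]
      exact h1
    · right
      push Not at h1
      set y := Nat.sqrt x with hy
      have hDt : D (U, true) x w = ∑ v ∈ Tx K x, d.cen U w v - D (U, false) y w := rfl
      have h2 : l / 2 * gauge ε x < |D (U, false) y w| := by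
        have h3 : ∑ v ∈ Tx K x, d.cen U w v = D (U, true) x w + D (U, false) y w := by
          rw [hDt]
          ring
        rw [h3] at hxl
        have := abs_add_le (D (U, true) x w) (D (U, false) y w)
        linarith
      have hyx : y ≤ x := Nat.sqrt_le_self x
      have hy16 : 16 ≤ y := by
        by_contra hcon
        push Not at hcon
        have h4 : |D (U, false) y w| ≤ C2 := by
          have h5 : D (U, false) y w = ∑ p ∈ OP y, d.data.X (U, false) p w := rfl
          rw [h5]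
          refine (Finset.abs_sum_le_sum_abs _ _).trans ?_
          refine (Finset.sum_le_sum fun p hp => d.data.bound (U, false) p (mem_OP.1 hp).2.1
            (mem_OP.1 hp).2.2 w).trans ?_
          refine Finset.sum_le_sum_of_subset_of_nonneg ?_ fun p _ _ => d.data.b_nonneg p
          intro p hp
          rw [mem_OP] at hp ⊢
          exact ⟨by omega, hp.2⟩
        have h6 := gauge_ge hε hx
        have h7 : l / 2 ≤ l / 2 * gauge ε x := le_mul_of_one_le_right (by linarith) h6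
        linarith
      rw [hE2, mem_filter]
      refine ⟨hwB, y, hy16, (Nat.pow_le_pow_left hyx k).trans hxN, ?_⟩
      rw [mul_assoc]
      have h8 := gauge_mono hε hy16 hyx
      have h9 : l / 2 * gauge ε y ≤ l / 2 * gauge ε x := mul_le_mul_of_nonneg_left h8 (by linarith)
      exact lt_of_le_of_lt h9 h2
  have hcard : ((#E : ℕ) : ℝ) ≤ (#E1 : ℝ) + #E2 := by
    have := (card_le_card hsub).trans (card_union_le _ _)
    exact_mod_cast this
  have hl2A : (l / 2) ^ (-A) = 2 ^ A * l ^ (-A) := by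
    rw [Real.div_rpow hlp.le (by norm_num), Real.rpow_neg (by norm_num : (0 : ℝ) ≤ 2), div_inv_eq_mul,
      mul_comm]
  rw [hl2A] at L1 L2
  have hl0A : 0 ≤ l0 ^ A := by positivity
  calc ((#E : ℕ) : ℝ) ≤ (#E1 : ℝ) + #E2 := hcard
    _ ≤ C * (2 ^ A * l ^ (-A)) * (N : ℝ) ^ (2 * dm K J) + C * (2 ^ A * l ^ (-A)) * (N : ℝ) ^ (2 * dm K J) :=
        add_le_add L1 L2
    _ = (2 * C * 2 ^ A) * l ^ (-A) * (N : ℝ) ^ (2 * dm K J) := by ring
    _ ≤ _ := by
      refine mul_le_mul_of_nonneg_right (mul_le_mul_of_nonneg_right ?_ hlA.le) (by positivity)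
      linarith

/-- the box with the origin `U` and the side `N` -/
noncomputable def ibox {ι : Type} [Fintype ι] [DecidableEq ι] (U : ι → ℤ) (N : ℕ) : Finset (ι → ℤ) :=
  Fintype.piFinset fun i => Finset.Ioc (U i) (U i + N)

open Classical in
/-- **The law.** -/
theorem main {ε A : ℝ} (hε : 0 < ε) (hA : 0 < A) :
    ∃ (k : ℕ) (C : ℝ), 0 < k ∧ 0 ≤ C ∧ ∀ (ψ : P) (ω : Basis (Fin (finrank ℚ K)) ℤ (𝓞 K))
      (U : J × Fin (finrank ℚ K) → ℤ) (N : ℕ), 0 < N → ∀ l : ℝ, 1 ≤ l →
      (((ibox U N).filter fun z => ∃ x : ℕ, 16 ≤ x ∧ x ^ k ≤ N ∧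
        l * gauge ε x < |∑ v ∈ Tx K x, (d.g ψ v (rd ω v z) - d.M ψ v)|).card : ℝ) ≤
          C * l ^ (-A) * (N : ℝ) ^ dm K J := by
  obtain ⟨k, C, hk, hC, h⟩ := d.main_Pt hε hA
  refine ⟨k, C, hk, hC, fun ψ ω U N hN l hl => ?_⟩
  have h1 := h N hN (ω, U, ψ) l hl
  have hN0 : (0 : ℝ) < N := by exact_mod_cast hN
  set S := (ibox U N).filter fun z => ∃ x : ℕ, 16 ≤ x ∧ x ^ k ≤ N ∧
        l * gauge ε x < |∑ v ∈ Tx K x, (d.g ψ v (rd ω v z) - d.M ψ v)| with hS
  set B := Fintype.piFinset fun _ : Fin (dm K J) => Finset.Icc 1 N with hB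
  -- the pairs
  let f : (J × Fin (finrank ℚ K) → ℤ) × (Fin (dm K J) → ℕ) → Pt (dm K J) := fun y i =>
    ((y.1 ((en K J).symm i) - U ((en K J).symm i)).toNat, y.2 i)
  have hle : (S ×ˢ B).card ≤ ((BX (dm K J) N).filter fun w : Pt (dm K J) => ∃ x : ℕ, 16 ≤ x ∧ x ^ k ≤ N ∧
        l * gauge ε x < |∑ v ∈ Tx K x, d.cen (ω, U, ψ) w v|).card := by
    have hz : ∀ y : (J × Fin (finrank ℚ K) → ℤ) × (Fin (dm K J) → ℕ), y.1 ∈ S → zp U (f y) = y.1 := by
      intro y hy
      rw [hS, mem_filter] at hy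
      have h2 := hy.1
      unfold ibox at h2
      rw [Fintype.mem_piFinset] at h2
      funext i
      have h3 := h2 i
      rw [mem_Ioc] at h3
      unfold zp
      simp only [f, Equiv.symm_apply_apply]
      rw [Int.toNat_of_nonneg (by linarith)]
      ring
    refine Finset.card_le_card_of_injOn f ?_ ?_
    · intro y hy
      rw [Finset.mem_coe, mem_product] at hy
      have hzy := hz y hy.1
      have h2 := hy.1
      rw [hS, mem_filter] at h2
      rw [Finset.mem_coe, mem_filter]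
      constructor
      · rw [mem_BX]
        intro i
        have h3 := h2.1
        unfold ibox at h3
        rw [Fintype.mem_piFinset] at h3
        have h4 := h3 ((en K J).symm i)
        rw [mem_Ioc] at h4
        have h5 := hy.2
        rw [hB, Fintype.mem_piFinset] at h5
        have h6 := h5 i
        rw [mem_Icc] at h6
        refine ⟨?_, h6⟩
        simp only [f]
        omega
      · obtain ⟨x, hx1, hx2, hx3⟩ := h2.2
        refine ⟨x, hx1, hx2, ?_⟩
        unfold cen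
        rw [hzy]
        exact hx3
    · intro y hy y' hy' hyy
      rw [Finset.mem_coe, mem_product] at hy hy'
      have h2 := hz y hy.1
      have h3 := hz y' hy'.1
      refine Prod.ext ?_ ?_
      · rw [← h2, ← h3, hyy]
      · funext i
        exact congrArg Prod.snd (congrFun hyy i)
  have hBc : B.card = N ^ dm K J := by
    rw [hB, Fintype.card_piFinset]
    simp
  rw [card_product, hBc] at hle
  have h2 : (S.card : ℝ) * (N : ℝ) ^ dm K J ≤ C * l ^ (-A) * (N : ℝ) ^ (2 * dm K J) := by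
    refine le_trans ?_ h1
    exact_mod_cast hle
  have hNp : (0 : ℝ) < (N : ℝ) ^ dm K J := by positivity
  rw [two_mul, pow_add, ← mul_assoc] at h2
  exact le_of_mul_le_mul_right h2 hNp

end LF

end Pool.Agent.Helper89.CP
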