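import Pool.Agent.Helper89.CP.Law

/-!
# The local factors at the central point
-/

set_option autoImplicit false
set_option linter.all false

namespace Pool.Agent.Helper89.CP

open Finset NumberField IsDedekindDomain Module Filter
open Pool.Agent.N430.BP
open Pool.Agent.H921R2.TatePole (below deg nm nm_eq fiber_card_le R R_eq_hc hc R_le two_le_nm)
open Pool.Agent.Helper89.MM (fintypeV redJ Fam card_v)
open Pool.Agent.Helper89.EllipticFamilies (param)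

attribute [local instance] fintypeV

theorem abs_log_one_sub {w : ℂ} (h : ‖w‖ ≤ 1 / 2) : |Real.log ‖1 - w‖| ≤ 2 * ‖w‖ := by
  have h0 := norm_nonneg w
  have h1 : 1 - ‖w‖ ≤ ‖1 - w‖ := by
    have := norm_sub_norm_le (1 : ℂ) w
    rw [norm_one] at this
    exact this
  have h2 : ‖1 - w‖ ≤ 1 + ‖w‖ := by
    have := norm_sub_le (1 : ℂ) w
    rw [norm_one] at this
    exact this
  have hp : 0 < ‖1 - w‖ := by linarith
  rw [abs_le]
  constructor
  · have h3 := Real.one_sub_inv_le_log_of_pos hp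
    have h4 : (‖1 - w‖)⁻¹ ≤ 1 + 2 * ‖w‖ := by
      rw [inv_le_comm₀ hp (by linarith)]
      refine le_trans ?_ h1
      rw [inv_le_comm₀ (by linarith) (by linarith), ← one_div, div_le_iff₀ (by linarith)]
      nlinarith
    linarith
  · have h3 := Real.log_le_sub_one_of_pos hp
    linarith

/-- the logarithm of the absolute value of a factor of degree two -/
theorem abs_log_fac {q t : ℝ} {T : ℂ} (hq : 5 ≤ q) (ht : |t| ≤ 2 * Real.sqrt q)
    (hT : Real.sqrt q * ‖T‖ ≤ (Real.sqrt q)⁻¹) :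
    |Real.log ‖1 - ((t : ℂ) * T - q * T ^ 2)‖| ≤ 4 * (Real.sqrt q)⁻¹ := by
  have hq0 : 0 < q := by linarith
  have hs0 : 0 < Real.sqrt q := Real.sqrt_pos.mpr hq0
  have hs2 : Real.sqrt q ^ 2 = q := Real.sq_sqrt hq0.le
  have hs3 : 2 ≤ Real.sqrt q := by
    rw [show (2 : ℝ) = Real.sqrt 4 by rw [show (4 : ℝ) = 2 ^ 2 by norm_num, Real.sqrt_sq (by norm_num)]]
    exact Real.sqrt_le_sqrt (by linarith)
  have hi : (Real.sqrt q)⁻¹ ≤ 1 / 2 := by
    rw [inv_le_comm₀ hs0 (by norm_num)]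
    norm_num
    exact hs3
  set y : ℝ := Real.sqrt (4 * q - t ^ 2) with hy
  have hy0 : 0 ≤ 4 * q - t ^ 2 := by
    have h1 : t ^ 2 ≤ (2 * Real.sqrt q) ^ 2 := sq_le_sq.mpr (by rwa [abs_of_pos (by positivity : 0 < 2 * Real.sqrt q)])
    rw [mul_pow, hs2] at h1
    linarith
  have hy2 : y ^ 2 = 4 * q - t ^ 2 := Real.sq_sqrt hy0
  have hn : ∀ y' : ℝ, y' ^ 2 = 4 * q - t ^ 2 →
      ‖((t / 2 : ℝ) : ℂ) + ((y' / 2 : ℝ) : ℂ) * Complex.I‖ = Real.sqrt q := by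
    intro y' hy'
    rw [Complex.norm_add_mul_I]
    congr 1
    rw [div_pow, div_pow, hy']
    ring
  have key : 1 - ((t : ℂ) * T - q * T ^ 2) =
      (1 - (((t / 2 : ℝ) : ℂ) + ((y / 2 : ℝ) : ℂ) * Complex.I) * T) *
        (1 - (((t / 2 : ℝ) : ℂ) + ((-y / 2 : ℝ) : ℂ) * Complex.I) * T) := by
    have h1 : (y : ℂ) ^ 2 = 4 * q - t ^ 2 := by exact_mod_cast hy2
    push_cast
    have h2 := Complex.I_sq
    linear_combination (-(T ^ 2) / 4) * h1 + ((y : ℂ) ^ 2 * T ^ 2 / 4 ) * h2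
  set w1 : ℂ := (((t / 2 : ℝ) : ℂ) + ((y / 2 : ℝ) : ℂ) * Complex.I) * T with hw1
  set w2 : ℂ := (((t / 2 : ℝ) : ℂ) + ((-y / 2 : ℝ) : ℂ) * Complex.I) * T with hw2
  have n1 : ‖w1‖ ≤ (Real.sqrt q)⁻¹ := by
    rw [hw1, norm_mul, hn y hy2]
    exact hT
  have n2 : ‖w2‖ ≤ (Real.sqrt q)⁻¹ := by
    rw [hw2, norm_mul, hn (-y) (by rw [neg_sq]; exact hy2)]
    exact hT
  have l1 := abs_log_one_sub (n1.trans hi)
  have l2 := abs_log_one_sub (n2.trans hi)
  have ne : ∀ w : ℂ, ‖w‖ ≤ 1 / 2 → ‖1 - w‖ ≠ 0 := by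
    intro w hw h
    rw [norm_eq_zero, sub_eq_zero] at h
    rw [← h, norm_one] at hw
    norm_num at hw
  rw [key, norm_mul, Real.log_mul (ne w1 (n1.trans hi)) (ne w2 (n2.trans hi))]
  refine (abs_add_le _ _).trans ?_
  linarith

section
variable {K : Type} [Field K] [NumberField K] {J : Type} [Fintype J] [DecidableEq J]

/-- functions on the primes with values in the closed unit disk -/
abbrev Psi (K : Type) [Field K] [NumberField K] : Type := {ψ : HeightOneSpectrum (𝓞 K) → ℂ // ∀ v, ‖ψ v‖ ≤ 1}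

theorem sqrt_nm' (v : HeightOneSpectrum (𝓞 K)) : (Real.sqrt (nm v))⁻¹ = ri (below v : ℕ) ^ deg v :=
  sqrt_nm v

variable (F : Fam K J)

open Classical in
/-- one minus the local factor at `1` of the twist -/
noncomputable def zt (ψ : HeightOneSpectrum (𝓞 K) → ℂ) (v : HeightOneSpectrum (𝓞 K)) (a : J → 𝓞 K ⧸ v.asIdeal) : ℂ :=
  if F.good v a then (F.t v a : ℂ) * (ψ v / nm v) - (nm v : ℝ) * (ψ v / nm v) ^ 2 else 0

/-- the logarithm of the local factor -/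
noncomputable def gg (ψ : Psi K) (v : HeightOneSpectrum (𝓞 K)) (a : J → 𝓞 K ⧸ v.asIdeal) : ℝ :=
  -Real.log ‖1 - zt F ψ.1 v a‖

/-- its mean, essentially -/
noncomputable def MM (r : ℕ) (ψ : Psi K) (v : HeightOneSpectrum (𝓞 K)) : ℝ :=
  -((r * ψ.1 v + ψ.1 v ^ 2 / 2) / nm v).re

theorem nm_pos (v : HeightOneSpectrum (𝓞 K)) : (0 : ℝ) < nm v := by
  exact_mod_cast (by have := two_le_nm v; omega : 0 < nm v)

theorem nT (ψ : Psi K) (v : HeightOneSpectrum (𝓞 K)) :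
    Real.sqrt (nm v) * ‖ψ.1 v / (nm v : ℂ)‖ ≤ (Real.sqrt (nm v))⁻¹ := by
  have h0 := nm_pos v
  have hs0 : 0 < Real.sqrt (nm v) := Real.sqrt_pos.mpr h0
  have hs2 : Real.sqrt (nm v) ^ 2 = nm v := Real.sq_sqrt h0.le
  have h1 := ψ.2 v
  rw [norm_div, Complex.norm_natCast]
  have h2 : ‖ψ.1 v‖ / (nm v : ℝ) ≤ 1 / (nm v : ℝ) := by gcongr
  calc Real.sqrt (nm v) * (‖ψ.1 v‖ / (nm v : ℝ)) ≤ Real.sqrt (nm v) * (1 / (nm v : ℝ)) := by gcongr
    _ = (Real.sqrt (nm v))⁻¹ := by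
      rw [mul_one_div, div_eq_iff h0.ne', eq_comm, inv_mul_eq_iff_eq_mul₀ hs0.ne', ← sq, hs2]

theorem gg_bound (ψ : Psi K) (v : HeightOneSpectrum (𝓞 K)) (a : J → 𝓞 K ⧸ v.asIdeal) :
    |gg F ψ v a| ≤ 4 * ri (below v : ℕ) ^ deg v := by
  have hr := ri_nonneg (below v : ℕ)
  unfold gg zt
  rw [abs_neg]
  split_ifs with h
  · have h5 : (5 : ℝ) ≤ nm v := by exact_mod_cast F.five v a h
    have := abs_log_fac (T := ψ.1 v / (nm v : ℂ)) h5 (F.weil v a) (nT ψ v)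
    rw [sqrt_nm'] at this
    exact this
  · rw [sub_zero, norm_one, Real.log_one, abs_zero]
    positivity

theorem MM_bound (r : ℕ) (ψ : Psi K) (v : HeightOneSpectrum (𝓞 K)) :
    |MM r ψ v| ≤ (r + 1) * ri (below v : ℕ) ^ (2 * deg v) := by
  have h0 := nm_pos v
  have hs2 : Real.sqrt (nm v) ^ 2 = nm v := Real.sq_sqrt h0.le
  have h1 := ψ.2 v
  have h2 : ri (below v : ℕ) ^ (2 * deg v) = 1 / (nm v : ℝ) := by
    rw [mul_comm, pow_mul, ← sqrt_nm', inv_pow, hs2, one_div]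
  unfold MM
  rw [abs_neg, h2]
  refine (Complex.abs_re_le_norm _).trans ?_
  rw [norm_div, Complex.norm_natCast, mul_one_div]
  apply div_le_div_of_nonneg_right _ h0.le
  refine (norm_add_le _ _).trans ?_
  have h3 : ‖(r : ℂ) * ψ.1 v‖ ≤ r := by
    rw [norm_mul, Complex.norm_natCast]
    exact mul_le_of_le_one_right (Nat.cast_nonneg _) h1
  have h4 : ‖ψ.1 v ^ 2 / 2‖ ≤ 1 := by
    rw [norm_div, norm_pow, Complex.norm_ofNat]
    have : ‖ψ.1 v‖ ^ 2 ≤ 1 := pow_le_one₀ (norm_nonneg _) h1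
    linarith
  linarith

theorem ri_pos {p : ℕ} (hp : 0 < p) : 0 < ri p := by
  unfold ri
  have : (0 : ℝ) < Real.sqrt p := Real.sqrt_pos.mpr (by exact_mod_cast hp)
  positivity

/-- the mean of the local function at almost all primes -/
theorem gg_mean_ev : ∃ C : ℝ, 0 ≤ C ∧ ∀ᶠ v : HeightOneSpectrum (𝓞 K) in cofinite, ∀ ψ : Psi K,
    |(∑ a, gg F ψ v a) / Fintype.card (J → 𝓞 K ⧸ v.asIdeal) - MM F.r ψ v| ≤
      C * ri (below v : ℕ) ^ (3 * deg v) := by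
  classical
  obtain ⟨C, ρ, hC, hρ, hb⟩ := Pool.Agent.Helper89.MM.bound_of_isBigO Pool.Agent.Helper89.MM.log_exp
  refine ⟨2 * (14 * 1 + 46 * 1 + 27 * C), by positivity, ?_⟩
  filter_upwards [F.mom1, F.mom2, F.bad, Pool.Agent.Helper89.MM.nm_rpow_small K (x := 1 / 2) (by norm_num)
    (show 0 < ρ / 3 by positivity)] with v h1 h2 h3 h4 ψ
  have hq : (2 : ℝ) ≤ nm v := by exact_mod_cast two_le_nm v
  have hq0 : (0 : ℝ) < nm v := by linarith
  set q : ℝ := (nm v : ℝ) with hqd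
  have hs0 : 0 < Real.sqrt q := Real.sqrt_pos.mpr hq0
  have hs2 : Real.sqrt q ^ 2 = q := Real.sq_sqrt hq0.le
  have hcard : ((Fintype.card (J → 𝓞 K ⧸ v.asIdeal) : ℕ) : ℝ) = q ^ Fintype.card J := by
    rw [Fintype.card_fun, card_v]; push_cast; rfl
  set T : ℂ := ψ.1 v / (nm v : ℂ) with hT
  set Q : ℝ := Real.sqrt q * ‖T‖ with hQ
  have hQ1 : Q ≤ (Real.sqrt q)⁻¹ := nT ψ v
  have hs1 : 1 ≤ Real.sqrt q := Real.one_le_sqrt.mpr (by linarith)
  have hi1 : (Real.sqrt q)⁻¹ ≤ 1 := inv_le_one_of_one_le₀ hs1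
  have hsm : (Real.sqrt q)⁻¹ = q ^ (-(1 / 2) : ℝ) := by
    rw [Real.sqrt_eq_rpow, ← Real.rpow_neg hq0.le]
  have hQ0 : 0 ≤ Q := by rw [hQ]; positivity
  have hQρ : 3 * Q ≤ ρ := by
    rw [hsm] at hQ1
    linarith
  rw [finsum_eq_sum_of_fintype] at h1 h2
  have key := Pool.Agent.Helper89.MM.mean_local (A := J → 𝓞 K ⧸ v.asIdeal) (F.good v) (F.t v)
    (fun z => -Complex.log (1 - z)) 0 1 (1 / 2) C ρ q F.r hC
    (by linarith) hb (F.weil v) (by rw [hcard]; exact h1) (by rw [hcard]; exact h2)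
    (by
      rw [hcard]
      refine le_trans (le_of_eq ?_) h3
      rw [Nat.card_eq_fintype_card, Fintype.card_subtype])
    T Q hQ (hQ1.trans hi1) hQρ
  set n : ℝ := (Fintype.card (J → 𝓞 K ⧸ v.asIdeal) : ℝ) with hn
  set X : ℂ := (∑ a : J → 𝓞 K ⧸ v.asIdeal, if F.good v a then
      -Complex.log (1 - ((F.t v a : ℂ) * T - q * T ^ 2)) else 0) /
      ((Fintype.card (J → 𝓞 K ⧸ v.asIdeal) : ℕ) : ℂ) with hX
  set Y : ℂ := 0 - 1 * ((F.r : ℝ) : ℂ) * T + (1 / 2 - 1) * (q : ℂ) * T ^ 2 with hY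
  have eX : X.re = (∑ a, gg F ψ v a) / n := by
    rw [hX, Complex.div_natCast_re, Complex.re_sum]
    congr 1
    refine Finset.sum_congr rfl fun a _ => ?_
    unfold gg zt
    by_cases hg : F.good v a
    · rw [if_pos hg, if_pos hg, Complex.neg_re, Complex.log_re]
    · rw [if_neg hg, if_neg hg, sub_zero, norm_one, Real.log_one, neg_zero, Complex.zero_re]
  have eY : Y.re = MM F.r ψ v := by
    have h5 : Y = -((F.r * ψ.1 v + ψ.1 v ^ 2 / 2) / (nm v : ℂ)) := by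
      have h6 : (nm v : ℂ) ≠ 0 := by
        have := two_le_nm v
        exact_mod_cast (by omega : nm v ≠ 0)
      rw [hY, hT, hqd]
      push_cast
      field_simp
      ring
    rw [h5, Complex.neg_re]
    rfl
  have h6 : |(∑ a, gg F ψ v a) / n - MM F.r ψ v| ≤ ‖X - Y‖ := by
    rw [← eX, ← eY, ← Complex.sub_re]
    exact Complex.abs_re_le_norm _
  refine h6.trans (key.trans ?_)
  have h7 : ri (below v : ℕ) ^ (3 * deg v) = (Real.sqrt q)⁻¹ ^ 3 := by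
    rw [mul_comm, pow_mul, ← sqrt_nm']
  rw [h7]
  have h8 : ‖(1 : ℂ)‖ = 1 := norm_one
  have h9 : ‖(1 / 2 : ℂ)‖ ≤ 1 := by
    rw [norm_div, norm_one, Complex.norm_ofNat]
    norm_num
  have h10 : Q ^ 3 ≤ (Real.sqrt q)⁻¹ ^ 3 := by gcongr
  have h11 : Q / q ≤ (Real.sqrt q)⁻¹ ^ 3 := by
    calc Q / q ≤ (Real.sqrt q)⁻¹ / q := by gcongr
      _ = (Real.sqrt q)⁻¹ ^ 3 := by
        rw [pow_succ' _ 2, inv_pow, hs2, div_eq_mul_inv]
  have h12 : 0 ≤ Q ^ 3 + Q / q := by positivity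
  have h13 : 0 ≤ ‖(1 / 2 : ℂ)‖ := norm_nonneg _
  rw [h8]
  calc (14 * 1 + 46 * ‖(1 / 2 : ℂ)‖ + 27 * C) * (Q ^ 3 + Q / q)
      ≤ (14 * 1 + 46 * 1 + 27 * C) * (2 * (Real.sqrt q)⁻¹ ^ 3) := by
        apply mul_le_mul _ _ h12 (by positivity)
        · linarith
        · linarith
    _ = _ := by ring

theorem gg_mean : ∃ C : ℝ, 0 ≤ C ∧ ∀ (ψ : Psi K) (v : HeightOneSpectrum (𝓞 K)),
    |(∑ a, gg F ψ v a) / Fintype.card (J → 𝓞 K ⧸ v.asIdeal) - MM F.r ψ v| ≤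
      C * ri (below v : ℕ) ^ (3 * deg v) := by
  classical
  obtain ⟨C, hC, h⟩ := gg_mean_ev F
  rw [eventually_cofinite] at h
  set S := h.toFinset with hS
  set C1 : ℝ := ∑ v ∈ S, (4 + (F.r + 1)) / ri (below v : ℕ) ^ (3 * deg v) with hC1
  have hnn : ∀ v : HeightOneSpectrum (𝓞 K), 0 < ri (below v : ℕ) ^ (3 * deg v) := fun v =>
    pow_pos (ri_pos (below v).2.pos) _
  have hterm : ∀ v ∈ S, 0 ≤ (4 + ((F.r : ℝ) + 1)) / ri (below v : ℕ) ^ (3 * deg v) := fun v _ =>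
    div_nonneg (by positivity) (hnn v).le
  refine ⟨C + C1, add_nonneg hC (Finset.sum_nonneg hterm), fun ψ v => ?_⟩
  by_cases hv : v ∈ S
  · have h1 : (4 + ((F.r : ℝ) + 1)) / ri (below v : ℕ) ^ (3 * deg v) ≤ C1 :=
      Finset.single_le_sum (f := fun v : HeightOneSpectrum (𝓞 K) =>
        (4 + ((F.r : ℝ) + 1)) / ri (below v : ℕ) ^ (3 * deg v)) hterm hv
    have h2 : 4 + ((F.r : ℝ) + 1) ≤ C1 * ri (below v : ℕ) ^ (3 * deg v) := by
      rwa [div_le_iff₀ (hnn v)] at h1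
    have hr1 : ri (below v : ℕ) ^ deg v ≤ 1 :=
      pow_le_one₀ (ri_nonneg _) (ri_le_one (below v).2.pos)
    have hr2 : ri (below v : ℕ) ^ (2 * deg v) ≤ 1 :=
      pow_le_one₀ (ri_nonneg _) (ri_le_one (below v).2.pos)
    have hq : (0 : ℝ) < Fintype.card (J → 𝓞 K ⧸ v.asIdeal) := by exact_mod_cast Fintype.card_pos
    have h3 : |(∑ a, gg F ψ v a) / (Fintype.card (J → 𝓞 K ⧸ v.asIdeal) : ℝ)| ≤ 4 := by
      rw [abs_div, abs_of_pos hq, div_le_iff₀ hq]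
      refine (Finset.abs_sum_le_sum_abs _ _).trans ?_
      refine (Finset.sum_le_sum fun a _ => (gg_bound F ψ v a).trans
        (show 4 * ri (below v : ℕ) ^ deg v ≤ 4 by linarith)).trans ?_
      rw [Finset.sum_const, card_univ, nsmul_eq_mul, mul_comm]
    have h4 : |MM F.r ψ v| ≤ F.r + 1 := by
      refine (MM_bound F.r ψ v).trans ?_
      exact mul_le_of_le_one_right (by positivity) hr2
    refine (abs_sub _ _).trans ?_
    have h5 : 0 ≤ C * ri (below v : ℕ) ^ (3 * deg v) := mul_nonneg hC (hnn v).le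
    rw [add_mul]
    linarith
  · have h1 : ¬ ¬ ∀ ψ : Psi K, |(∑ a, gg F ψ v a) / (Fintype.card (J → 𝓞 K ⧸ v.asIdeal) : ℝ) - MM F.r ψ v| ≤
      C * ri (below v : ℕ) ^ (3 * deg v) := by
      intro h2
      apply hv
      rw [hS, Set.Finite.mem_toFinset]
      exact h2
    push Not at h1
    have h2 : 0 ≤ C1 := Finset.sum_nonneg hterm
    have h3 : 0 ≤ C1 * ri (below v : ℕ) ^ (3 * deg v) := mul_nonneg h2 (hnn v).le
    rw [add_mul]
    have := h1 ψ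
    linarith

/-- the local functions of a family -/
noncomputable def lf : LF K J (Psi K) where
  g := gg F
  M := MM F.r
  C0 := 4 + (F.r + 1) + (gg_mean F).choose
  C0_nonneg := by
    have := (gg_mean F).choose_spec.1
    positivity
  bound ψ v a := by
    have h1 := gg_bound F ψ v a
    have h2 := (gg_mean F).choose_spec.1
    have h3 : 0 ≤ ri (below v : ℕ) ^ deg v := pow_nonneg (ri_nonneg _) _
    have h4 : 0 ≤ ((F.r : ℝ) + 1 + (gg_mean F).choose) * ri (below v : ℕ) ^ deg v := by positivity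
    linarith
  boundM ψ v := by
    have h1 := MM_bound F.r ψ v
    have h2 := (gg_mean F).choose_spec.1
    have h3 : 0 ≤ ri (below v : ℕ) ^ deg v := pow_nonneg (ri_nonneg _) _
    have h4 : 0 ≤ (4 + (gg_mean F).choose) * ri (below v : ℕ) ^ deg v := by positivity
    have h5 : ri (below v : ℕ) ^ (2 * deg v) ≤ ri (below v : ℕ) ^ deg v :=
      pow_le_pow_of_le_one (ri_nonneg _) (ri_le_one (below v).2.pos) (by omega)
    have h6 : ((F.r : ℝ) + 1) * ri (below v : ℕ) ^ (2 * deg v) ≤ (F.r + 1) * ri (below v : ℕ) ^ deg v :=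
      mul_le_mul_of_nonneg_left h5 (by positivity)
    linarith
  mean ψ v := by
    have h1 := (gg_mean F).choose_spec.2 ψ v
    have h3 : 0 ≤ ri (below v : ℕ) ^ (3 * deg v) := pow_nonneg (ri_nonneg _) _
    have h4 : 0 ≤ (4 + ((F.r : ℝ) + 1)) * ri (below v : ℕ) ^ (3 * deg v) := by positivity
    linarith

end

end Pool.Agent.Helper89.CP
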