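import Pool.Agent.Helper89.CP.Loc
import Pool.Agent.Helper89.CP.Defs

/-!
# The law for the Euler products at the central point
-/

set_option autoImplicit false
set_option linter.all false

namespace Pool.Agent.Helper89.CP

open Finset NumberField IsDedekindDomain Module Filter
open Pool.Agent.N430.BP hiding TT
open Pool.Agent.H921R2.TatePole (below deg nm nm_eq fiber_card_le R R_eq_hc hc R_le two_le_nm)
open Pool.Agent.Helper89.MM (fintypeV redJ Fam card_v TT)
open Pool.Agent.Helper89.EllipticFamilies (param trace factor Models centralFactor primesUpTo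
  centralProduct mainTerm errorTerm exceptions)

attribute [local instance] fintypeV

section
variable {K : Type} [Field K] [NumberField K] {J : Type} [Fintype J] [DecidableEq J]

theorem coe_Tx (x : ℕ) : (primesUpTo K x : Set (HeightOneSpectrum (𝓞 K))) = ↑(Tx K x) := by
  ext v
  rw [Finset.mem_coe, mem_Tx]
  rfl

theorem TT_zero (v : HeightOneSpectrum (𝓞 K)) : TT v 0 = 1 := by
  unfold TT
  rw [neg_zero, Complex.cpow_zero]

theorem TT_one (v : HeightOneSpectrum (𝓞 K)) : TT v 1 = ((nm v : ℕ) : ℂ)⁻¹ := by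
  unfold TT
  rw [Complex.cpow_neg_one]

theorem nmC_ne (v : HeightOneSpectrum (𝓞 K)) : ((nm v : ℕ) : ℂ) ≠ 0 := by
  have := two_le_nm v
  exact_mod_cast (by omega : nm v ≠ 0)

theorem nmC_ne_one (v : HeightOneSpectrum (𝓞 K)) : ((nm v : ℕ) : ℂ) ≠ 1 := by
  have := two_le_nm v
  exact_mod_cast (by omega : nm v ≠ 1)

open Classical in
/-- the Euler factors of the twists -/
theorem central_eq {c : (J → 𝓞 K) → WeierstrassCurve (𝓞 K)} {F : Fam K J} (hM : Models c F)
    (a : J → 𝓞 K) (ψ : HeightOneSpectrum (𝓞 K) → ℂ) (v : HeightOneSpectrum (𝓞 K)) :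
    centralFactor (c a) ψ v = 1 - zt F ψ v (redJ v a) := by
  have h0 := hM.eq a v 0
  have h1 := hM.eq a v 1
  have hq := nmC_ne v
  have hq1 := nmC_ne_one v
  have hnm : ((Ideal.absNorm v.asIdeal : ℕ) : ℂ) = ((nm v : ℕ) : ℂ) := rfl
  unfold factor at h0 h1
  unfold Fam.zx Fam.zz at h0 h1
  rw [hnm] at h0 h1
  rw [TT_zero] at h0
  rw [TT_one] at h1
  rw [neg_zero, Complex.cpow_zero, mul_zero, sub_zero, Complex.cpow_one] at h0
  rw [Complex.cpow_neg_one, show (1 : ℂ) - 2 * 1 = -1 by norm_num, Complex.cpow_neg_one] at h1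
  unfold centralFactor zt
  rw [hnm]
  by_cases h6 : 6 * (c a).Δ ∈ v.asIdeal
  · rw [if_pos h6] at h0 h1
    by_cases hg : F.good v (redJ v a)
    · exfalso
      rw [if_pos hg] at h0 h1
      have e1 : (F.t v (redJ v a) : ℂ) = nm v := by
        push_cast at h0
        linear_combination h0
      have e2 : (F.t v (redJ v a) : ℂ) = 1 := by
        push_cast at h1
        field_simp at h1
        linear_combination h1
      exact hq1 (e1.symm.trans e2)
    · rw [if_pos h6, if_neg hg, sub_zero]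
  · rw [if_neg h6] at h0 h1
    by_cases hg : F.good v (redJ v a)
    · rw [if_pos hg] at h0
      have e1 : (F.t v (redJ v a) : ℂ) = trace (c a) v := by
        push_cast at h0
        linear_combination h0
      rw [if_neg h6, if_pos hg, e1]
      push_cast
      field_simp
      ring
    · exfalso
      rw [if_neg hg] at h0 h1
      have e1 : (trace (c a) v : ℂ) = nm v := by linear_combination -h0
      have e2 : (trace (c a) v : ℂ) = 1 := by
        field_simp at h1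
        linear_combination -h1
      exact hq1 (e1.symm.trans e2)

theorem zt_ne (F : Fam K J) (ψ : Psi K) (v : HeightOneSpectrum (𝓞 K)) (a : J → 𝓞 K ⧸ v.asIdeal) :
    1 - zt F ψ.1 v a ≠ 0 := by
  unfold zt
  split_ifs with h
  · have h0 := nm_pos v
    have hs1 : 1 < Real.sqrt (nm v) := by
      rw [← Real.sqrt_one]
      apply Real.sqrt_lt_sqrt (by norm_num)
      exact_mod_cast (by have := two_le_nm v; omega : 1 < nm v)
    have h1 := nT ψ v
    have h2 : (Real.sqrt (nm v))⁻¹ < 1 := inv_lt_one_of_one_lt₀ hs1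
    exact Complex.slitPlane_ne_zero (Pool.Agent.Helper89.MM.fac_slit h0 (F.weil v a) (lt_of_le_of_lt h1 h2))
  · rw [sub_zero]
    exact one_ne_zero

theorem central_ne {c : (J → 𝓞 K) → WeierstrassCurve (𝓞 K)} {F : Fam K J} (hM : Models c F)
    (a : J → 𝓞 K) {ψ : HeightOneSpectrum (𝓞 K) → ℂ} (hψ : ∀ v, ‖ψ v‖ ≤ 1) (x : ℕ) :
    centralProduct (c a) ψ x ≠ 0 := by
  unfold centralProduct
  rw [coe_Tx, finprod_mem_coe_finset]
  refine Finset.prod_ne_zero_iff.2 fun v _ => ?_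
  rw [central_eq hM]
  exact inv_ne_zero (zt_ne F ⟨ψ, hψ⟩ v _)

/-- the logarithm of the product -/
theorem log_central {c : (J → 𝓞 K) → WeierstrassCurve (𝓞 K)} {F : Fam K J} (hM : Models c F)
    (ω : Basis (Fin (finrank ℚ K)) ℤ (𝓞 K)) (z : J × Fin (finrank ℚ K) → ℤ) (ψ : Psi K) (x : ℕ) :
    Real.log ‖centralProduct (c (param ω z)) ψ.1 x‖ + (mainTerm F.r ψ.1 x).re =
      ∑ v ∈ Tx K x, ((lf F).g ψ v (rd ω v z) - (lf F).M ψ v) := by
  unfold centralProduct mainTerm
  rw [coe_Tx, finprod_mem_coe_finset, finsum_mem_coe_finset, norm_prod, Real.log_prod, Complex.re_sum,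
    ← Finset.sum_add_distrib]
  · refine Finset.sum_congr rfl fun v _ => ?_
    rw [central_eq hM, norm_inv, Real.log_inv]
    show _ = gg F ψ v (rd ω v z) - MM F.r ψ v
    unfold gg MM rd
    rw [sub_neg_eq_add]
    rfl
  · intro v _
    rw [central_eq hM]
    exact norm_ne_zero_iff.2 (inv_ne_zero (zt_ne F ψ v _))

theorem gauge_eq (ε : ℝ) (x : ℕ) : errorTerm ε x = gauge ε x := rfl

theorem mem_ibox {ι : Type} [Fintype ι] [DecidableEq ι] {U : ι → ℤ} {N : ℕ} {z : ι → ℤ} :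
    z ∈ LF.ibox U N ↔ ∀ i, U i < z i ∧ z i ≤ U i + N := by
  unfold LF.ibox
  rw [Fintype.mem_piFinset]
  simp only [mem_Ioc]

theorem card_ibox {ι : Type} [Fintype ι] [DecidableEq ι] (U : ι → ℤ) (N : ℕ) :
    (LF.ibox U N).card = N ^ Fintype.card ι := by
  unfold LF.ibox
  rw [Fintype.card_piFinset]
  simp

theorem dm_eq (K : Type) [Field K] [NumberField K] (J : Type) [Fintype J] :
    dm K J = Fintype.card J * finrank ℚ K := by
  unfold dm
  rw [Fintype.card_prod, Fintype.card_fin]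

/-- **The law for all twists.** -/
theorem law_twists {c : (J → 𝓞 K) → WeierstrassCurve (𝓞 K)} {F : Fam K J} (hM : Models c F)
    {ε A : ℝ} (hε : 0 < ε) (hA : 0 < A) :
    ∃ (k : ℕ) (C : ℝ), 0 < k ∧ 0 ≤ C ∧ ∀ (ω : Basis (Fin (finrank ℚ K)) ℤ (𝓞 K))
      (U : J × Fin (finrank ℚ K) → ℤ) (N : ℕ), 0 < N → ∀ l : ℝ, 1 ≤ l →
      ∀ ψ : HeightOneSpectrum (𝓞 K) → ℂ, (∀ v, ‖ψ v‖ ≤ 1) →
        ((exceptions c ω U N k ε l fun W x =>
          Real.log ‖centralProduct W ψ x‖ + (mainTerm F.r ψ x).re).ncard : ℝ) ≤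
          C * l ^ (-A) * (N : ℝ) ^ (Fintype.card J * finrank ℚ K) := by
  classical
  obtain ⟨k, C, hk, hC, h⟩ := (lf F).main hε hA
  refine ⟨k, C, hk, hC, fun ω U N hN l hl ψ hψ => ?_⟩
  have h1 := h ⟨ψ, hψ⟩ ω U N hN l hl
  rw [dm_eq] at h1
  refine le_trans (le_of_eq ?_) h1
  congr 1
  rw [← Set.ncard_coe_finset]
  congr 1
  ext z
  rw [Finset.mem_coe, mem_filter, mem_ibox]
  unfold exceptions
  refine and_congr Iff.rfl (exists_congr fun x => and_congr Iff.rfl (and_congr Iff.rfl ?_))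
  rw [gauge_eq]
  have := log_central hM ω z ⟨ψ, hψ⟩ x
  simp only at this ⊢
  rw [this]

end

/-- Mertens' theorem for the primes of a number field -/
theorem mertensK (K : Type) [Field K] [NumberField K] : ∃ C : ℝ, 0 ≤ C ∧ ∀ x : ℕ, 16 ≤ x →
    |∑ v ∈ Tx K x, (1 : ℝ) / nm v - Real.log (Real.log x)| ≤ C := by
  obtain ⟨C1, hC1, h1⟩ := homs_mertens K
  set Z := ∑' n : ℕ, (n : ℝ) ^ (-(3 / 2) : ℝ) with hZ
  have hZ0 : 0 ≤ Z := tsum_nonneg fun n => by positivity
  set d : ℝ := ((finrank ℚ K : ℕ) : ℝ) with hd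
  have hd0 : 0 ≤ d := Nat.cast_nonneg _
  set g : HeightOneSpectrum (𝓞 K) → ℝ := fun v => (1 : ℝ) / nm v with hg
  have hnm : ∀ v : HeightOneSpectrum (𝓞 K), g v = ri (below v : ℕ) ^ (2 * deg v) := by
    intro v
    have h0 := nm_pos v
    have hs2 : Real.sqrt (nm v) ^ 2 = nm v := Real.sq_sqrt h0.le
    rw [mul_comm, pow_mul, ← sqrt_nm', inv_pow, hs2, ← one_div]
  have hH : ∀ x p : ℕ, p ∈ Pr x → |HH g x p - (Nat.card (𝓞 K →+* ZMod p) : ℝ) / p| ≤ d * ri p ^ 3 := by
    intro x p hp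
    unfold Pr at hp
    rw [mem_filter, mem_Icc] at hp
    obtain ⟨⟨_, hpx⟩, hpp⟩ := hp
    have h2 : (Nat.card (𝓞 K →+* ZMod p) : ℝ) =
        ∑ v : {v : HeightOneSpectrum (𝓞 K) // below v = mkP p hpp}, (if deg v.1 = 1 then (1 : ℝ) else 0) := by
      have h3 := R_eq_hc (K := K) (mkP p hpp)
      unfold hc R at h3
      rw [mkP_coe] at h3
      rw [← h3, Finset.sum_boole]
    rw [h2]
    unfold HH
    rw [dif_pos hpp, Finset.sum_div, ← Finset.sum_sub_distrib]
    refine (Finset.abs_sum_le_sum_abs _ _).trans ?_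
    have hr0 := ri_nonneg p
    have hr1 := ri_le_one hpp.pos
    have h4 : ∀ v : {v : HeightOneSpectrum (𝓞 K) // below v = mkP p hpp},
        |(if nm v.1 ≤ x then g v.1 else 0) - (if deg v.1 = 1 then (1 : ℝ) else 0) / p| ≤ ri p ^ 3 := by
      intro v
      have hv : (below v.1 : ℕ) = p := by rw [v.2]; rfl
      obtain ⟨n1, n2, _⟩ := nm_eq v.1
      rw [hv] at n1
      have hpos : 0 ≤ ri p ^ 3 := by positivity
      by_cases h1 : deg v.1 = 1
      · rw [h1, pow_one] at n1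
        rw [n1, if_pos hpx, if_pos h1, hg]
        simp only
        rw [n1, sub_self, abs_zero]
        exact hpos
      · rw [if_neg h1, zero_div, sub_zero]
        split_ifs
        · rw [hnm, hv, abs_of_nonneg (by positivity)]
          exact pow_le_pow_of_le_one hr0 hr1 (by omega)
        · rw [abs_zero]
          exact hpos
    refine (Finset.sum_le_sum fun v _ => h4 v).trans ?_
    rw [Finset.sum_const, card_univ, nsmul_eq_mul]
    exact mul_le_mul_of_nonneg_right (fiber_le _) (by positivity)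
  refine ⟨d + d * Z + C1, by positivity, fun x hx => ?_⟩
  have e1 := sum_Tx g x
  have e2 := h1 x (by exact_mod_cast (by omega : 3 ≤ x))
  rw [PR_eq] at e2
  have e3 := sum_OP (fun p => HH g x p - (Nat.card (𝓞 K →+* ZMod p) : ℝ) / p) (x := x) (by omega)
  have b1 : |HH g x 2 - (Nat.card (𝓞 K →+* ZMod 2) : ℝ) / (2 : ℕ)| ≤ d := by
    refine (hH x 2 ?_).trans ?_
    · unfold Pr
      rw [mem_filter, mem_Icc]
      exact ⟨⟨by norm_num, by omega⟩, Nat.prime_two⟩
    · exact mul_le_of_le_one_right hd0 (pow_le_one₀ (ri_nonneg _) (ri_le_one (by norm_num)))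
  have b2 : |∑ p ∈ OP x, (HH g x p - (Nat.card (𝓞 K →+* ZMod p) : ℝ) / p)| ≤ d * Z := by
    refine (Finset.abs_sum_le_sum_abs _ _).trans ((Finset.sum_le_sum fun p hp => hH x p ?_).trans ?_)
    · exact (mem_filter.1 hp).1
    · rw [← Finset.mul_sum]
      exact mul_le_mul_of_nonneg_left (sum_ri x) hd0
  rw [e3, Finset.sum_sub_distrib] at b2
  rw [e1]
  have f1 := abs_le.1 b1
  have f2 := abs_le.1 b2
  have f3 := abs_le.1 e2
  rw [abs_le]
  constructor <;> linarith [f1.1, f1.2, f2.1, f2.2, f3.1, f3.2]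

section
variable {K : Type} [Field K] [NumberField K] {J : Type} [Fintype J] [DecidableEq J]

theorem main_one (r : ℕ) : ∃ C : ℝ, 0 ≤ C ∧ ∀ x : ℕ, 16 ≤ x →
    |(mainTerm (K := K) r (fun _ => 1) x).re - (r + 1 / 2) * Real.log (Real.log x)| ≤ C := by
  obtain ⟨C, hC, h⟩ := mertensK K
  refine ⟨(r + 1 / 2) * C, by positivity, fun x hx => ?_⟩
  have h1 : (mainTerm (K := K) r (fun _ => 1) x).re = (r + 1 / 2) * ∑ v ∈ Tx K x, (1 : ℝ) / nm v := by
    unfold mainTerm
    rw [coe_Tx, finsum_mem_coe_finset, Complex.re_sum, Finset.mul_sum]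
    refine Finset.sum_congr rfl fun v _ => ?_
    have h2 : ((r : ℂ) * 1 + 1 ^ 2 / 2) / ((Ideal.absNorm v.asIdeal : ℕ) : ℂ) =
        (((r + 1 / 2) * ((1 : ℝ) / nm v) : ℝ) : ℂ) := by
      have hnm : ((Ideal.absNorm v.asIdeal : ℕ) : ℂ) = ((nm v : ℕ) : ℂ) := rfl
      rw [hnm]
      push_cast
      ring
    rw [h2, Complex.ofReal_re]
  rw [h1, ← mul_sub, abs_mul, abs_of_nonneg (by positivity)]
  exact mul_le_mul_of_nonneg_left (h x hx) (by positivity)

theorem finite_exc {c : (J → 𝓞 K) → WeierstrassCurve (𝓞 K)} (ω : Basis (Fin (finrank ℚ K)) ℤ (𝓞 K))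
    (U : J × Fin (finrank ℚ K) → ℤ) (N k : ℕ) (ε l : ℝ) (f : WeierstrassCurve (𝓞 K) → ℕ → ℝ) :
    exceptions c ω U N k ε l f ⊆ ↑(LF.ibox U N) := by
  intro z hz
  rw [Finset.mem_coe, mem_ibox]
  exact hz.1

/-- **The law for the curves themselves.** -/
theorem law_one {c : (J → 𝓞 K) → WeierstrassCurve (𝓞 K)} {F : Fam K J} (hM : Models c F)
    {ε A : ℝ} (hε : 0 < ε) (hA : 0 < A) :
    ∃ (k : ℕ) (C : ℝ), 0 < k ∧ 0 ≤ C ∧ ∀ (ω : Basis (Fin (finrank ℚ K)) ℤ (𝓞 K))
      (U : J × Fin (finrank ℚ K) → ℤ) (N : ℕ), 0 < N → ∀ l : ℝ, 1 ≤ l →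
        (∀ ψ : HeightOneSpectrum (𝓞 K) → ℂ, (∀ v, ‖ψ v‖ ≤ 1) →
          ((exceptions c ω U N k ε l fun W x =>
            Real.log ‖centralProduct W ψ x‖ + (mainTerm F.r ψ x).re).ncard : ℝ) ≤
            C * l ^ (-A) * (N : ℝ) ^ (Fintype.card J * finrank ℚ K)) ∧
        ((exceptions c ω U N k ε l fun W x =>
          Real.log ‖centralProduct W (fun _ => 1) x‖ + (F.r + 1 / 2) * Real.log (Real.log x)).ncard : ℝ) ≤
          C * l ^ (-A) * (N : ℝ) ^ (Fintype.card J * finrank ℚ K) := by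
  classical
  obtain ⟨k, C, hk, hC, h⟩ := law_twists hM hε hA
  obtain ⟨C1, hC1, h1⟩ := main_one (K := K) F.r
  set l0 : ℝ := 2 + 2 * C1 with hl0
  have hl00 : 0 < l0 := by rw [hl0]; linarith
  have h2A : (0 : ℝ) < 2 ^ A := Real.rpow_pos_of_pos (by norm_num) _
  have h12A : (1 : ℝ) ≤ 2 ^ A := Real.one_le_rpow (by norm_num) hA.le
  have hl0A : 0 < l0 ^ A := Real.rpow_pos_of_pos hl00 _
  refine ⟨k, C * 2 ^ A + l0 ^ A, hk, by positivity, fun ω U N hN l hl => ?_⟩
  have hN0 : (0 : ℝ) < N := by exact_mod_cast hN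
  have hlp : 0 < l := by linarith
  have hlA : 0 < l ^ (-A) := Real.rpow_pos_of_pos hlp _
  have hNp : (0 : ℝ) < (N : ℝ) ^ (Fintype.card J * finrank ℚ K) := by positivity
  refine ⟨fun ψ hψ => ?_, ?_⟩
  · refine (h ω U N hN l hl ψ hψ).trans ?_
    refine mul_le_mul_of_nonneg_right (mul_le_mul_of_nonneg_right ?_ hlA.le) hNp.le
    nlinarith
  set S := exceptions c ω U N k ε l fun W x =>
          Real.log ‖centralProduct W (fun _ => 1) x‖ + (F.r + 1 / 2) * Real.log (Real.log x) with hS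
  have hfin : (↑(LF.ibox U N) : Set (J × Fin (finrank ℚ K) → ℤ)).Finite := Finset.finite_toSet _
  by_cases hlC : l < l0
  · have h3 : ((S.ncard : ℕ) : ℝ) ≤ (N : ℝ) ^ (Fintype.card J * finrank ℚ K) := by
      have h4 : S.ncard ≤ (LF.ibox U N).card := by
        rw [← Set.ncard_coe_finset]
        exact Set.ncard_le_ncard (finite_exc ω U N k ε l _) hfin
      rw [card_ibox, Fintype.card_prod, Fintype.card_fin] at h4
      exact_mod_cast h4
    have h4 : (1 : ℝ) ≤ l0 ^ A * l ^ (-A) := by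
      rw [Real.rpow_neg hlp.le, ← div_eq_mul_inv, one_le_div (Real.rpow_pos_of_pos hlp _)]
      exact Real.rpow_le_rpow hlp.le hlC.le hA.le
    have h5 : (0 : ℝ) ≤ C * 2 ^ A * l ^ (-A) := by positivity
    calc ((S.ncard : ℕ) : ℝ) ≤ 1 * (N : ℝ) ^ (Fintype.card J * finrank ℚ K) := by rw [one_mul]; exact h3
      _ ≤ _ := by
        refine mul_le_mul_of_nonneg_right ?_ hNp.le
        rw [add_mul]
        linarith
  push Not at hlC
  have hl2 : 1 ≤ l / 2 := by linarith
  have L1 := h ω U N hN (l / 2) hl2 (fun _ => 1) (fun v => by rw [norm_one])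
  have hsub : S ⊆ exceptions c ω U N k ε (l / 2) fun W x =>
      Real.log ‖centralProduct W (fun _ => 1) x‖ + (mainTerm (K := K) F.r (fun _ => 1) x).re := by
    rintro z ⟨hz1, x, hx, hxN, hxl⟩
    refine ⟨hz1, x, hx, hxN, ?_⟩
    simp only at hxl ⊢
    have h3 := h1 x hx
    have h4 := gauge_ge hε hx
    rw [gauge_eq] at hxl ⊢
    set g := gauge ε x with hg
    set Lg := Real.log ‖centralProduct (c (param ω z)) (fun _ => 1) x‖ with hLg
    set m1 := (mainTerm (K := K) F.r (fun _ => 1) x).re with hm1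
    set m2 := ((F.r : ℝ) + 1 / 2) * Real.log (Real.log x) with hm2
    have h5 : |Lg + m2| ≤ |Lg + m1| + |m1 - m2| := by
      have := abs_sub (Lg + m1) (m1 - m2)
      have e : Lg + m1 - (m1 - m2) = Lg + m2 := by ring
      rwa [e] at this
    have h6 : C1 ≤ l / 2 * g := by nlinarith
    nlinarith
  have h3 : ((S.ncard : ℕ) : ℝ) ≤ ((exceptions c ω U N k ε (l / 2) fun W x =>
      Real.log ‖centralProduct W (fun _ => 1) x‖ + (mainTerm (K := K) F.r (fun _ => 1) x).re).ncard : ℝ) := by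
    exact_mod_cast Set.ncard_le_ncard hsub (hfin.subset (finite_exc ω U N k ε (l / 2) _))
  have hl2A : (l / 2) ^ (-A) = 2 ^ A * l ^ (-A) := by
    rw [Real.div_rpow hlp.le (by norm_num), Real.rpow_neg (by norm_num : (0 : ℝ) ≤ 2), div_inv_eq_mul,
      mul_comm]
  rw [hl2A] at L1
  refine h3.trans (L1.trans ?_)
  rw [← mul_assoc C]
  refine mul_le_mul_of_nonneg_right (mul_le_mul_of_nonneg_right ?_ hlA.le) hNp.le
  linarith

end

end Pool.Agent.Helper89.CP
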